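import Mathlib.Algebra.Group.Subgroup.Lattice
import Mathlib.Algebra.Group.End
import Mathlib.Data.Int.ModEq
import Mathlib.Tactic

/-! The group generated by all horizontal class transpositions has infinite width with respect to
the horizontal class transpositions.

A product of `n` horizontal class transpositions has at most `3 ^ n` different displacements
`g x - x`, whereas the group contains permutations with arbitrarily many displacements. -/

namespace Pool.Agent.Results.MP_9704e3_al.InfiniteWidth

open Equiv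

/-- the map exchanging the residue classes `i` and `j` modulo `k` by translation -/
def swapFun (k i j x : ℤ) : ℤ :=
  if x % k = i then x + (j - i) else if x % k = j then x - (j - i) else x

theorem swapFun_swapFun {k i j : ℤ} (hi : 0 ≤ i) (hij : i < j) (hj : j < k) (x : ℤ) :
    swapFun k i j (swapFun k i j x) = x := by
  have hk : 0 < k := by omega
  unfold swapFun
  by_cases h1 : x % k = i
  · have h2 : (x + (j - i)) % k = j := by
      rw [Int.add_emod, h1, Int.emod_eq_of_lt (a := j - i) (by omega) (by omega)]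
      rw [show i + (j - i) = j by ring]
      exact Int.emod_eq_of_lt (by omega) hj
    rw [if_pos h1, if_neg (by omega), if_pos h2]
    ring
  · by_cases h2 : x % k = j
    · have h3 : (x - (j - i)) % k = i := by
        rw [Int.sub_emod, h2, Int.emod_eq_of_lt (a := j - i) (by omega) (by omega)]
        rw [show j - (j - i) = i by ring]
        exact Int.emod_eq_of_lt hi (by omega)
      rw [if_neg h1, if_pos h2, if_pos h3]
      ring
    · rw [if_neg h1, if_neg h2, if_neg h1, if_neg h2]

/-- The horizontal class transposition `τ_{i(k), j(k)}`, for `0 ≤ i < j ≤ k - 1`. -/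
def classTransposition (k i j : ℤ) (hi : 0 ≤ i) (hij : i < j) (hj : j < k) : Perm ℤ where
  toFun := swapFun k i j
  invFun := swapFun k i j
  left_inv := swapFun_swapFun hi hij hj
  right_inv := swapFun_swapFun hi hij hj

/-- The set `H` of all horizontal class transpositions. -/
def H : Set (Perm ℤ) :=
  {τ | ∃ (k i j : ℤ) (hi : 0 ≤ i) (hij : i < j) (hj : j < k),
    τ = classTransposition k i j hi hij hj}

theorem disp_of_mem_H {τ : Perm ℤ} (h : τ ∈ H) : ∃ d : ℤ, ∀ x, τ x - x ∈ ({0, d, -d} : Finset ℤ) := by
  obtain ⟨k, i, j, hi, hij, hj, rfl⟩ := h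
  refine ⟨j - i, fun x => ?_⟩
  have : classTransposition k i j hi hij hj x = swapFun k i j x := rfl
  rw [this]
  unfold swapFun
  simp only [Finset.mem_insert, Finset.mem_singleton]
  split_ifs <;> omega

theorem disp_prod (l : List (Perm ℤ)) (h : ∀ τ ∈ l, τ ∈ H) :
    ∃ D : Finset ℤ, D.card ≤ 3 ^ l.length ∧ ∀ x, l.prod x - x ∈ D := by
  induction l with
  | nil => exact ⟨{0}, by simp, fun x => by simp⟩
  | cons τ l ih =>
    obtain ⟨D, hD, hD'⟩ := ih fun σ hσ => h σ (List.mem_cons_of_mem _ hσ)
    obtain ⟨d, hd⟩ := disp_of_mem_H (h τ List.mem_cons_self)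
    classical
    refine ⟨Finset.image₂ (· + ·) ({0, d, -d} : Finset ℤ) D, ?_, fun x => ?_⟩
    · calc (Finset.image₂ (· + ·) ({0, d, -d} : Finset ℤ) D).card
          ≤ ({0, d, -d} : Finset ℤ).card * D.card := Finset.card_image₂_le _ _ _
        _ ≤ 3 * 3 ^ l.length := Nat.mul_le_mul Finset.card_le_three hD
        _ = 3 ^ (τ :: l).length := by rw [List.length_cons, pow_succ]; ring
    · rw [List.prod_cons, Perm.mul_apply]
      refine Finset.mem_image₂.mpr ⟨_, hd (l.prod x), _, hD' x, by ring⟩

/-- the product of the class transpositions `τ_{i(2m), (2m-1-i)(2m)}`, `i < n` -/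
theorem exists_many (m : ℕ) (n : ℕ) (hn : n ≤ m) : ∃ g ∈ Subgroup.closure H,
    (∀ i : ℤ, 0 ≤ i → i < n → g i = 2 * m - 1 - i) ∧
    (∀ i : ℤ, n ≤ i → i < 2 * m - n → g i = i) := by
  induction n with
  | zero =>
    refine ⟨1, one_mem _, fun i h1 h2 => ?_, fun i _ _ => rfl⟩
    simp at h2; omega
  | succ n ih =>
    obtain ⟨g, hg, h1, h2⟩ := ih (by omega)
    have hh : (0 : ℤ) ≤ n := by omega
    have hm : (n : ℤ) + 1 ≤ m := by exact_mod_cast hn
    let τ := classTransposition (2 * m) n (2 * m - 1 - n) hh (by omega) (by omega)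
    have hτ : ∀ x : ℤ, 0 ≤ x → x < 2 * m → τ x =
        if x = (n : ℤ) then 2 * (m : ℤ) - 1 - n else if x = 2 * (m : ℤ) - 1 - n then (n : ℤ) else x := by
      intro x h3 h4
      show swapFun (2 * m) n (2 * m - 1 - n) x = _
      unfold swapFun
      rw [Int.emod_eq_of_lt h3 h4]
      split_ifs <;> omega
    refine ⟨g * τ, mul_mem hg (Subgroup.subset_closure ⟨_, _, _, _, _, _, rfl⟩), ?_, ?_⟩
    · intro i h3 h4
      push_cast at h4
      rw [Perm.mul_apply, hτ i h3 (by omega)]
      by_cases h5 : i = n
      · rw [if_pos h5, h2 _ (by omega) (by omega), h5]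
      · rw [if_neg h5, if_neg (by omega), h1 i h3 (by omega)]
    · intro i h3 h4
      push_cast at h3 h4
      rw [Perm.mul_apply, hτ i (by omega) (by omega), if_neg (by omega), if_neg (by omega),
        h2 i (by omega) (by omega)]

/-- The group `CT_∞` generated by the set `H` of all horizontal class transpositions has infinite
width with respect to `H`: for every `n` there is an element of `CT_∞` which is not a product of at
most `n` elements of `H`. -/
theorem result : ¬ ∃ n : ℕ, ∀ g ∈ Subgroup.closure H,
    ∃ l : List (Perm ℤ), l.length ≤ n ∧ (∀ τ ∈ l, τ ∈ H) ∧ g = l.prod := by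
  rintro ⟨n, hn⟩
  obtain ⟨g, hg, h1, -⟩ := exists_many (3 ^ n + 1) (3 ^ n + 1) le_rfl
  obtain ⟨l, hl, hlH, rfl⟩ := hn g hg
  obtain ⟨D, hD, hD'⟩ := disp_prod l hlH
  have hinj : Function.Injective fun i : Fin (3 ^ n + 1) => l.prod (i : ℤ) - (i : ℤ) := by
    intro i j hij
    have hi := i.2
    have hj := j.2
    simp only at hij
    rw [h1 i (by omega) (by exact_mod_cast hi), h1 j (by omega) (by exact_mod_cast hj)] at hij
    apply Fin.ext
    omega
  have hcard : (3 ^ n + 1) ≤ D.card := by
    have := Finset.card_le_card_of_injOn (s := Finset.univ)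
      (fun i : Fin (3 ^ n + 1) => l.prod (i : ℤ) - (i : ℤ)) (fun i _ => hD' i)
      hinj.injOn
    simpa using this
  have : 3 ^ l.length ≤ 3 ^ n := Nat.pow_le_pow_right (by norm_num) hl
  omega

end Pool.Agent.Results.MP_9704e3_al.InfiniteWidth
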